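import Mathlib
import Pool.Agent.Q40.OddRec

set_option autoImplicit false

/-!
# Gaps between record values of `g` on odd non-deficient numbers are unbounded

For a prime `q ≥ 17` let `N` be the product of the odd primes up to `q`.  An odd `k < N` has fewer
distinct primes than `N`, so `H(k) ≤ ∏_{3 ≤ p < q} p/(p-1)`, and this yields
`g(k) + √N / q ≤ g(N)`.  Hence `N` is a record setter, and the last gap before `N` is at least
`√N / q`, which is unbounded.
-/

namespace Pool.Agent.Results.MP_e83726_nt.UnboundedGaps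

open Finset

/-- `n` is a positive integer with `σ(n) ≥ 2 n` -/
def NonDeficient (n : ℕ) : Prop := 0 < n ∧ 2 * n ≤ ∑ d ∈ n.divisors, d

/-- `g(n) = (n/φ(n) - 2) √n` -/
noncomputable def g (n : ℕ) : ℝ := ((n : ℝ) / (Nat.totient n : ℝ) - 2) * Real.sqrt n

/-- the set `B₁` of odd non-deficient record setters of `g` -/
def B1 : Set ℕ :=
  {n | Odd n ∧ NonDeficient n ∧ ∀ k : ℕ, k < n → Odd k → NonDeficient k → g k < g n}

/-- The set `B₁` is infinite and, listed in increasing order (`Nat.nth` with index starting at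
`0`), the gaps between consecutive record values of `g` are unbounded. -/
theorem result : B1.Infinite ∧ ∀ M : ℝ, ∃ j : ℕ,
    M < g (Nat.nth (fun n => n ∈ B1) (j + 1)) - g (Nat.nth (fun n => n ∈ B1) j) := by
  classical
  have hinf : B1.Infinite := Pool.Agent.Q40.OddRec.B1_infinite
  refine ⟨hinf, ?_⟩
  intro M
  have h17 : Nat.Prime 17 := by norm_num
  obtain ⟨q, hq, hq17, hqK, hqM⟩ := Pool.Agent.Q40.OddRec.exists_big M
    (Pool.Agent.Q40.OddRec.NN 17)
  set N := Pool.Agent.Q40.OddRec.NN q with hN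
  have hNB : N ∈ B1 := Pool.Agent.Q40.OddRec.NN_mem_B1 q hq hq17
  have hlt : Pool.Agent.Q40.OddRec.NN 17 < N :=
    lt_of_lt_of_le hqK (Pool.Agent.Q40.OddRec.le_NN q hq (by omega))
  have h17B : Pool.Agent.Q40.OddRec.NN 17 ∈ B1 :=
    Pool.Agent.Q40.OddRec.NN_mem_B1 17 h17 le_rfl
  have hc : Nat.count (fun n => n ∈ B1) (Pool.Agent.Q40.OddRec.NN 17) <
      Nat.count (fun n => n ∈ B1) N := Nat.count_strict_mono h17B hlt
  obtain ⟨j, hj⟩ : ∃ j, Nat.count (fun n => n ∈ B1) N = j + 1 :=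
    ⟨Nat.count (fun n => n ∈ B1) N - 1, by omega⟩
  have e1 : Nat.nth (fun n => n ∈ B1) (j + 1) = N := by
    rw [← hj]
    exact Nat.nth_count hNB
  have e2 : Nat.nth (fun n => n ∈ B1) j < N := by
    rw [← e1]
    exact Nat.nth_strictMono hinf (Nat.lt_succ_self j)
  have e3 : Nat.nth (fun n => n ∈ B1) j ∈ B1 := Nat.nth_mem_of_infinite hinf j
  refine ⟨j, ?_⟩
  rw [e1]
  have h1 := Pool.Agent.Q40.OddRec.gap q hq hq17 (Nat.nth (fun n => n ∈ B1) j) e2 e3.1
  have h2 : ∀ k, Pool.Agent.Q40.OddRec.g k = g k := fun _ => rfl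
  rw [h2, h2] at h1
  rw [← hN] at h1
  linarith

end Pool.Agent.Results.MP_e83726_nt.UnboundedGaps
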